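import Mathlib

/-!
Nine matrices of determinant one which generate a free group acting freely on the nonzero vectors
of the plane, and the open unit square is paradoxical under them.
-/

set_option autoImplicit false

namespace Pool.Agent.TH559.Sq

open Matrix

abbrev Letter := Fin 9 × Bool
abbrev SL2R := Matrix.SpecialLinearGroup (Fin 2) ℝ

def mA : Fin 9 → ℤ := ![26, 23, 22, 42, 37, 44, 28, 41, 41]
def mB : Fin 9 → ℤ := ![1, 5, 7, 1, 1, 1, -9, -15, -17]
def mC : Fin 9 → ℤ := ![1, 1, 1, 5, 1, 7, -27, -7, -11]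
def mD : Fin 9 → ℤ := ![37, 42, 44, 23, 26, 22, 43, 26, 28]

theorem det_k : ∀ k, mA k * mD k - mB k * mC k = 961 := by decide

def Ut : Fin 9 → ℤ × ℤ :=
  ![(26, 1), (23, 1), (22, 1), (11, 5), (6, 1), (13, 7), (28, 4), (10, 24), (10, 20)]
def Uf : Fin 9 → ℤ × ℤ :=
  ![(6, 30), (11, 30), (13, 30), (23, 26), (26, 30), (22, 24), (12, 27), (26, 7), (28, 11)]
def Vt : Fin 9 → ℤ × ℤ :=
  ![(1, 6), (1, 11), (1, 13), (1, 17), (1, 26), (1, 12), (1, 3), (1, 14), (1, 20)]
def Vf : Fin 9 → ℤ × ℤ :=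
  ![(1, 5), (1, 8), (1, 9), (1, 4), (1, 25), (1, 7), (1, 24), (1, 28), (1, 15)]

def U (s : Letter) : ℤ × ℤ := if s.2 then Ut s.1 else Uf s.1
def V (s : Letter) : ℤ × ℤ := if s.2 then Vt s.1 else Vf s.1

/-- the four entries of the integral matrix of a letter -/
def eA (s : Letter) : ℤ := if s.2 then mA s.1 else mD s.1
def eB (s : Letter) : ℤ := if s.2 then mB s.1 else -mB s.1
def eC (s : Letter) : ℤ := if s.2 then mC s.1 else -mC s.1
def eD (s : Letter) : ℤ := if s.2 then mD s.1 else mA s.1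

theorem rank_one : ∀ s : Letter, (31 : ℤ) ∣ eA s - (U s).1 * (V s).1 ∧
    (31 : ℤ) ∣ eB s - (U s).1 * (V s).2 ∧ (31 : ℤ) ∣ eC s - (U s).2 * (V s).1 ∧
    (31 : ℤ) ∣ eD s - (U s).2 * (V s).2 := by decide

theorem nonzero : ∀ s t : Letter, (s.1 = t.1 → s.2 = t.2) →
    ¬ (31 : ℤ) ∣ (V s).1 * (U t).1 + (V s).2 * (U t).2 := by decide

def lz (s : Letter) : Matrix (Fin 2) (Fin 2) ℤ := !![eA s, eB s; eC s, eD s]

/-- the matrices -/
noncomputable def g (k : Fin 9) : SL2R :=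
  ⟨!![(mA k : ℝ) / 31, (mB k : ℝ) / 31; (mC k : ℝ) / 31, (mD k : ℝ) / 31], by
    have h := det_k k
    have h' : (mA k : ℝ) * mD k - mB k * mC k = 961 := by exact_mod_cast h
    rw [Matrix.det_fin_two_of]
    linear_combination h' / 961⟩

noncomputable def phi : FreeGroup (Fin 9) →* SL2R := FreeGroup.lift g

theorem phi_letter (s : Letter) : ((phi (FreeGroup.mk [s]) : SL2R) : Matrix (Fin 2) (Fin 2) ℝ) =
    (1 / 31 : ℝ) • (lz s).map (Int.cast : ℤ → ℝ) := by
  obtain ⟨k, c⟩ := s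
  cases c with
  | true =>
    have : phi (FreeGroup.mk [(k, true)]) = g k := FreeGroup.lift_apply_of
    rw [this]
    ext i j
    fin_cases i <;> fin_cases j <;> simp [g, lz, eA, eB, eC, eD] <;> ring
  | false =>
    have : phi (FreeGroup.mk [(k, false)]) = (g k)⁻¹ := by
      have h : FreeGroup.mk [(k, false)] = (FreeGroup.of k)⁻¹ := rfl
      rw [h, map_inv]
      congr 1
      exact FreeGroup.lift_apply_of
    rw [this, Matrix.SpecialLinearGroup.coe_inv, Matrix.adjugate_fin_two]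
    ext i j
    fin_cases i <;> fin_cases j <;> simp [g, lz, eA, eB, eC, eD] <;> ring

theorem phi_mk (L : List Letter) :
    ((phi (FreeGroup.mk L) : SL2R) : Matrix (Fin 2) (Fin 2) ℝ) =
      ((1 / 31 : ℝ) ^ L.length) • ((L.map lz).prod).map (Int.cast : ℤ → ℝ) := by
  induction L with
  | nil =>
    have : FreeGroup.mk ([] : List Letter) = 1 := rfl
    rw [this, map_one]
    simp
  | cons s L ih =>
    have h : FreeGroup.mk (s :: L) = FreeGroup.mk [s] * FreeGroup.mk L := by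
      rw [FreeGroup.mul_mk]; rfl
    rw [h, map_mul, Matrix.SpecialLinearGroup.coe_mul, phi_letter, ih, List.map_cons,
      List.prod_cons, List.length_cons]
    have hm : (lz s * (List.map lz L).prod).map (Int.cast : ℤ → ℝ) =
        (lz s).map (Int.cast : ℤ → ℝ) * ((List.map lz L).prod).map (Int.cast : ℤ → ℝ) := by
      have := Matrix.map_mul (f := Int.castRingHom ℝ) (L := lz s) (M := (List.map lz L).prod)
      simpa using this
    rw [hm, Matrix.smul_mul, Matrix.mul_smul, smul_smul, pow_succ']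

/-- divisibility form of the rank one property of products -/
theorem prod_mod (L : List Letter) : ∀ s : Letter, FreeGroup.IsReduced (s :: L) →
    ∃ (c : ℤ) (t : Letter), (s :: L).getLast? = some t ∧ ¬ (31 : ℤ) ∣ c ∧
      (31 : ℤ) ∣ ((s :: L).map lz).prod 0 0 - c * ((U s).1 * (V t).1) ∧
      (31 : ℤ) ∣ ((s :: L).map lz).prod 0 1 - c * ((U s).1 * (V t).2) ∧
      (31 : ℤ) ∣ ((s :: L).map lz).prod 1 0 - c * ((U s).2 * (V t).1) ∧
      (31 : ℤ) ∣ ((s :: L).map lz).prod 1 1 - c * ((U s).2 * (V t).2) := by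
  induction L with
  | nil =>
    intro s _
    refine ⟨1, s, rfl, by norm_num, ?_⟩
    obtain ⟨h1, h2, h3, h4⟩ := rank_one s
    simp only [List.map_cons, List.map_nil, List.prod_cons, List.prod_nil, mul_one, one_mul, lz]
    exact ⟨h1, h2, h3, h4⟩
  | cons r L ih =>
    intro s hs
    have hr := (FreeGroup.isReduced_cons_cons.mp hs).2
    obtain ⟨c, t, ht, hc, h1, h2, h3, h4⟩ := ih r hr
    have hsr : s.1 = r.1 → s.2 = r.2 := (FreeGroup.isReduced_cons_cons.mp hs).1
    obtain ⟨r1, r2, r3, r4⟩ := rank_one s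
    refine ⟨c * ((V s).1 * (U r).1 + (V s).2 * (U r).2), t, ?_, ?_, ?_⟩
    · rw [List.getLast?_cons_cons]; exact ht
    · intro h
      rcases (Int.Prime.dvd_mul' (by norm_num : Nat.Prime 31) (by exact_mod_cast h)) with h | h
      · exact hc (by exact_mod_cast h)
      · exact nonzero s r hsr (by exact_mod_cast h)
    · have hp : ∀ i j, (List.map lz (s :: r :: L)).prod i j =
          lz s i 0 * (List.map lz (r :: L)).prod 0 j + lz s i 1 * (List.map lz (r :: L)).prod 1 j := by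
        intro i j
        rw [List.map_cons, List.prod_cons, Matrix.mul_apply, Fin.sum_univ_two]
      rw [hp, hp, hp, hp]
      generalize (List.map lz (r :: L)).prod = P at h1 h2 h3 h4 ⊢
      have l00 : lz s 0 0 = eA s := rfl
      have l01 : lz s 0 1 = eB s := rfl
      have l10 : lz s 1 0 = eC s := rfl
      have l11 : lz s 1 1 = eD s := rfl
      rw [l00, l01, l10, l11]
      obtain ⟨a1, e1⟩ := h1
      obtain ⟨a2, e2⟩ := h2
      obtain ⟨a3, e3⟩ := h3
      obtain ⟨a4, e4⟩ := h4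
      obtain ⟨b1, f1⟩ := r1
      obtain ⟨b2, f2⟩ := r2
      obtain ⟨b3, f3⟩ := r3
      obtain ⟨b4, f4⟩ := r4
      refine ⟨⟨b1 * P 0 0 + b2 * P 1 0 + (U s).1 * (V s).1 * a1 + (U s).1 * (V s).2 * a3, ?_⟩,
        ⟨b1 * P 0 1 + b2 * P 1 1 + (U s).1 * (V s).1 * a2 + (U s).1 * (V s).2 * a4, ?_⟩,
        ⟨b3 * P 0 0 + b4 * P 1 0 + (U s).2 * (V s).1 * a1 + (U s).2 * (V s).2 * a3, ?_⟩,
        ⟨b3 * P 0 1 + b4 * P 1 1 + (U s).2 * (V s).1 * a2 + (U s).2 * (V s).2 * a4, ?_⟩⟩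
      · linear_combination P 0 0 * f1 + P 1 0 * f2 + (U s).1 * (V s).1 * e1 + (U s).1 * (V s).2 * e3
      · linear_combination P 0 1 * f1 + P 1 1 * f2 + (U s).1 * (V s).1 * e2 + (U s).1 * (V s).2 * e4
      · linear_combination P 0 0 * f3 + P 1 0 * f4 + (U s).2 * (V s).1 * e1 + (U s).2 * (V s).2 * e3
      · linear_combination P 0 1 * f3 + P 1 1 * f4 + (U s).2 * (V s).1 * e2 + (U s).2 * (V s).2 * e4

theorem trace_of_fix {M : SL2R} {v : Fin 2 → ℝ} (hv : v ≠ 0)
    (h : (M : Matrix (Fin 2) (Fin 2) ℝ).mulVec v = v) :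
    (M : Matrix (Fin 2) (Fin 2) ℝ) 0 0 + (M : Matrix (Fin 2) (Fin 2) ℝ) 1 1 = 2 := by
  have hdet : (M : Matrix (Fin 2) (Fin 2) ℝ).det = 1 := M.2
  rw [Matrix.det_fin_two] at hdet
  have h0 := congrFun h 0
  have h1 := congrFun h 1
  simp only [Matrix.mulVec, dotProduct, Fin.sum_univ_two] at h0 h1
  set p := (M : Matrix (Fin 2) (Fin 2) ℝ) 0 0
  set q := (M : Matrix (Fin 2) (Fin 2) ℝ) 0 1
  set r := (M : Matrix (Fin 2) (Fin 2) ℝ) 1 0
  set s := (M : Matrix (Fin 2) (Fin 2) ℝ) 1 1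
  have k0 : v 0 * (2 - p - s) = 0 := by
    linear_combination (s - 1) * h0 - q * h1 - v 0 * hdet
  have k1 : v 1 * (2 - p - s) = 0 := by
    linear_combination (p - 1) * h1 - r * h0 - v 1 * hdet
  by_contra hne
  have h2 : (2 - p - s) ≠ 0 := fun h' => hne (by linarith)
  apply hv
  funext i
  fin_cases i
  · exact (mul_eq_zero.mp k0).resolve_right h2
  · exact (mul_eq_zero.mp k1).resolve_right h2

theorem no_fix_cyc {L : List Letter} (hL : FreeGroup.IsCyclicallyReduced L) (hne : L ≠ [])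
    {v : Fin 2 → ℝ} (hv : v ≠ 0) :
    ((phi (FreeGroup.mk L) : SL2R) : Matrix (Fin 2) (Fin 2) ℝ).mulVec v ≠ v := by
  intro h
  have htr := trace_of_fix hv h
  obtain ⟨s, L', rfl⟩ := List.exists_cons_of_ne_nil hne
  obtain ⟨c, t, ht, hc, h1, -, -, h4⟩ := prod_mod L' s hL.1
  have hts : t.1 = s.1 → t.2 = s.2 := hL.2 t ht s rfl
  rw [phi_mk] at htr
  simp only [Matrix.smul_apply, Matrix.map_apply, smul_eq_mul] at htr
  set P := ((s :: L').map lz).prod
  have hpos : ((31 : ℝ) ^ (s :: L').length) ≠ 0 := by positivity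
  have htr2 : ((P 0 0 + P 1 1 : ℤ) : ℝ) = ((2 * 31 ^ (s :: L').length : ℤ) : ℝ) := by
    push_cast
    rw [one_div, inv_pow] at htr
    field_simp at htr
    linarith
  have htr3 : P 0 0 + P 1 1 = 2 * 31 ^ (s :: L').length := by exact_mod_cast htr2
  have hd : (31 : ℤ) ∣ P 0 0 + P 1 1 := by
    rw [htr3, List.length_cons, pow_succ]
    exact ⟨2 * 31 ^ L'.length, by ring⟩
  have hd2 : (31 : ℤ) ∣ c * ((V t).1 * (U s).1 + (V t).2 * (U s).2) := by
    have := dvd_sub hd (dvd_add h1 h4)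
    have e : P 0 0 + P 1 1 - (P 0 0 - c * ((U s).1 * (V t).1) + (P 1 1 - c * ((U s).2 * (V t).2)))
      = c * ((V t).1 * (U s).1 + (V t).2 * (U s).2) := by ring
    rwa [e] at this
  rcases (Int.Prime.dvd_mul' (by norm_num : Nat.Prime 31) (by exact_mod_cast hd2)) with h | h
  · exact hc (by exact_mod_cast h)
  · exact nonzero t s hts (by exact_mod_cast h)

/-- the action of the free group -/
noncomputable def act (w : FreeGroup (Fin 9)) (v : Fin 2 → ℝ) : Fin 2 → ℝ :=
  ((phi w : SL2R) : Matrix (Fin 2) (Fin 2) ℝ).mulVec v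

theorem act_mul (w w' : FreeGroup (Fin 9)) (v : Fin 2 → ℝ) : act (w * w') v = act w (act w' v) := by
  unfold act
  rw [map_mul, Matrix.SpecialLinearGroup.coe_mul, Matrix.mulVec_mulVec]

theorem act_one (v : Fin 2 → ℝ) : act 1 v = v := by
  unfold act
  rw [map_one, Matrix.SpecialLinearGroup.coe_one, Matrix.one_mulVec]

theorem act_inv_act (w : FreeGroup (Fin 9)) (v : Fin 2 → ℝ) : act w⁻¹ (act w v) = v := by
  rw [← act_mul, inv_mul_cancel, act_one]

theorem act_act_inv (w : FreeGroup (Fin 9)) (v : Fin 2 → ℝ) : act w (act w⁻¹ v) = v := by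
  rw [← act_mul, mul_inv_cancel, act_one]

theorem act_zero (w : FreeGroup (Fin 9)) : act w 0 = 0 := by
  unfold act
  rw [Matrix.mulVec_zero]

theorem act_ne_zero (w : FreeGroup (Fin 9)) {v : Fin 2 → ℝ} (hv : v ≠ 0) : act w v ≠ 0 := by
  intro h
  apply hv
  rw [← act_inv_act w v, h, act_zero]

/-- the action on nonzero vectors is free -/
theorem free {w : FreeGroup (Fin 9)} {v : Fin 2 → ℝ} (hv : v ≠ 0) (h : act w v = v) : w = 1 := by
  by_contra hw
  have hconj := FreeGroup.reduceCyclically.conj_conjugator_reduceCyclically w.toWord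
  set C := FreeGroup.reduceCyclically.conjugator w.toWord
  set R := FreeGroup.reduceCyclically w.toWord
  have hR : FreeGroup.IsCyclicallyReduced R :=
    FreeGroup.reduceCyclically.isCyclicallyReduced FreeGroup.isReduced_toWord
  have e : w = FreeGroup.mk C * FreeGroup.mk R * (FreeGroup.mk C)⁻¹ := by
    rw [FreeGroup.inv_mk, FreeGroup.mul_mk, FreeGroup.mul_mk, hconj, FreeGroup.mk_toWord]
  have hRne : R ≠ [] := by
    intro h0
    apply hw
    rw [e, h0]
    have : FreeGroup.mk ([] : List Letter) = 1 := rfl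
    rw [this, mul_one, mul_inv_cancel]
  have h2 : act (FreeGroup.mk R) (act (FreeGroup.mk C)⁻¹ v) = act (FreeGroup.mk C)⁻¹ v := by
    have h3 : act (FreeGroup.mk C) (act (FreeGroup.mk R) (act (FreeGroup.mk C)⁻¹ v)) = v := by
      rw [← act_mul, ← act_mul, ← e, h]
    calc act (FreeGroup.mk R) (act (FreeGroup.mk C)⁻¹ v) = act (FreeGroup.mk C)⁻¹
          (act (FreeGroup.mk C) (act (FreeGroup.mk R) (act (FreeGroup.mk C)⁻¹ v))) := by
          rw [act_inv_act]
      _ = act (FreeGroup.mk C)⁻¹ v := by rw [h3]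
  exact no_fix_cyc hR hRne (act_ne_zero _ hv) h2

/-! ### orbits -/

/-- the orbit relation -/
def orb : Setoid (Fin 2 → ℝ) where
  r v v' := ∃ w, act w v = v'
  iseqv := {
    refl := fun v => ⟨1, act_one v⟩
    symm := by
      rintro v _ ⟨w, rfl⟩
      exact ⟨w⁻¹, act_inv_act w v⟩
    trans := by
      rintro v _ _ ⟨w, rfl⟩ ⟨w', rfl⟩
      exact ⟨w' * w, act_mul w' w v⟩ }

/-- a representative of the orbit -/
noncomputable def rep (v : Fin 2 → ℝ) : Fin 2 → ℝ := (Quotient.mk orb v).out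

theorem rep_act (w : FreeGroup (Fin 9)) (v : Fin 2 → ℝ) : rep (act w v) = rep v := by
  unfold rep
  have : Quotient.mk orb (act w v) = Quotient.mk orb v := by
    apply Quotient.sound
    exact orb.symm ⟨w, rfl⟩
  rw [this]

theorem exists_word (v : Fin 2 → ℝ) : ∃ w, act w (rep v) = v := by
  have : Quotient.mk orb (rep v) = Quotient.mk orb v := Quotient.out_eq _
  exact Quotient.exact this

/-- the word leading from the representative to the vector -/
noncomputable def word (v : Fin 2 → ℝ) : FreeGroup (Fin 9) := (exists_word v).choose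

theorem word_spec (v : Fin 2 → ℝ) : act (word v) (rep v) = v := (exists_word v).choose_spec

theorem rep_ne_zero {v : Fin 2 → ℝ} (hv : v ≠ 0) : rep v ≠ 0 := by
  intro h
  apply hv
  rw [← word_spec v, h, act_zero]

theorem word_act (w : FreeGroup (Fin 9)) {v : Fin 2 → ℝ} (hv : v ≠ 0) :
    word (act w v) = w * word v := by
  have h1 := word_spec (act w v)
  rw [rep_act] at h1
  have h2 : act (w * word v) (rep v) = act w v := by rw [act_mul, word_spec]
  have h3 : act ((w * word v)⁻¹ * word (act w v)) (rep v) = rep v := by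
    rw [act_mul, h1, ← h2, act_inv_act]
  have h4 := free (rep_ne_zero hv) h3
  exact (inv_mul_eq_one.mp h4).symm

/-- the letter `k` cancels at `v` -/
def Bad (v : Fin 2 → ℝ) (k : Fin 9) : Prop := (word v).toWord.head? = some (k, false)

theorem bad_unique {v : Fin 2 → ℝ} {k k' : Fin 9} (h : Bad v k) (h' : Bad v k') : k = k' := by
  unfold Bad at h h'
  rw [h] at h'
  simpa using h'

theorem head_of_good {v : Fin 2 → ℝ} (hv : v ≠ 0) {k : Fin 9} (h : ¬ Bad v k) :
    (word (act (FreeGroup.of k) v)).toWord.head? = some (k, true) := by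
  rw [word_act _ hv, FreeGroup.toWord_mul, FreeGroup.toWord_of]
  show (FreeGroup.reduce ((k, true) :: (word v).toWord)).head? = some (k, true)
  rw [FreeGroup.reduce.cons, FreeGroup.reduce_toWord]
  unfold Bad at h
  cases hL : (word v).toWord with
  | nil => rfl
  | cons s L =>
    rw [hL] at h
    have : ¬ ((k, true).1 = s.1 ∧ (k, true).2 = !s.2) := by
      rintro ⟨h1, h2⟩
      apply h
      obtain ⟨s1, s2⟩ := s
      simp only at h1 h2
      rw [List.head?_cons, h1]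
      cases s2
      · rfl
      · simp at h2
    simp only
    rw [if_neg this]
    rfl

/-! ### the square -/

/-- the open unit square -/
def Q : Set (Fin 2 → ℝ) := {v | ∀ k, 0 < v k ∧ v k < 1}

theorem ne_zero_of_mem {v : Fin 2 → ℝ} (h : v ∈ Q) : v ≠ 0 := by
  intro h0
  have := (h 0).1
  rw [h0] at this
  simp at this

theorem act_of (k : Fin 9) (v : Fin 2 → ℝ) : act (FreeGroup.of k) v =
    ((g k : SL2R) : Matrix (Fin 2) (Fin 2) ℝ).mulVec v := by
  unfold act phi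
  rw [FreeGroup.lift_apply_of]

theorem act_mem {k : Fin 9} {v : Fin 2 → ℝ}
    (h1 : 0 < (mA k : ℝ) * v 0 + mB k * v 1) (h2 : (mA k : ℝ) * v 0 + mB k * v 1 < 31)
    (h3 : 0 < (mC k : ℝ) * v 0 + mD k * v 1) (h4 : (mC k : ℝ) * v 0 + mD k * v 1 < 31) :
    act (FreeGroup.of k) v ∈ Q := by
  rw [act_of]
  intro i
  fin_cases i
  · simp only [g, Matrix.mulVec, dotProduct, Fin.sum_univ_two, Fin.zero_eta, Matrix.of_apply,
      Matrix.cons_val_zero, Matrix.cons_val_one, Matrix.cons_val']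
    constructor <;> linarith
  · simp only [g, Matrix.mulVec, dotProduct, Fin.sum_univ_two, Fin.mk_one, Matrix.of_apply,
      Matrix.cons_val_zero, Matrix.cons_val_one, Matrix.cons_val']
    constructor <;> linarith

theorem three {v : Fin 2 → ℝ} (h : v ∈ Q) : ∃ a b c : Fin 9, a ≠ b ∧ a ≠ c ∧ b ≠ c ∧
    act (FreeGroup.of a) v ∈ Q ∧ act (FreeGroup.of b) v ∈ Q ∧ act (FreeGroup.of c) v ∈ Q := by
  obtain ⟨x0, x1⟩ := h 0
  obtain ⟨y0, y1⟩ := h 1
  rcases lt_or_ge (v 1) (2 / 3) with hy | hy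
  · refine ⟨0, 1, 2, by decide, by decide, by decide, ?_, ?_, ?_⟩ <;> apply act_mem <;>
      simp [mA, mB, mC, mD] <;> linarith
  · rcases lt_or_ge (v 0) (2 / 3) with hx | hx
    · refine ⟨3, 4, 5, by decide, by decide, by decide, ?_, ?_, ?_⟩ <;> apply act_mem <;>
        simp [mA, mB, mC, mD] <;> linarith
    · refine ⟨6, 7, 8, by decide, by decide, by decide, ?_, ?_, ?_⟩ <;> apply act_mem <;>
        simp [mA, mB, mC, mD] <;> linarith

theorem two {v : Fin 2 → ℝ} (h : v ∈ Q) : ∃ a b : Fin 9, a ≠ b ∧ ¬ Bad v a ∧ ¬ Bad v b ∧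
    act (FreeGroup.of a) v ∈ Q ∧ act (FreeGroup.of b) v ∈ Q := by
  obtain ⟨a, b, c, hab, hac, hbc, ha, hb, hc⟩ := three h
  by_cases h1 : Bad v a
  · exact ⟨b, c, hbc, fun h2 => hab (bad_unique h1 h2), fun h2 => hac (bad_unique h1 h2), hb, hc⟩
  · by_cases h2 : Bad v b
    · exact ⟨a, c, hac, h1, fun h3 => hbc (bad_unique h2 h3), ha, hc⟩
    · exact ⟨a, b, hab, h1, h2, ha, hb⟩

open Classical in
/-- the two chosen letters -/
noncomputable def k1 (v : Fin 2 → ℝ) : Fin 9 := if h : v ∈ Q then (two h).choose else 0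

open Classical in
noncomputable def k2 (v : Fin 2 → ℝ) : Fin 9 :=
  if h : v ∈ Q then (two h).choose_spec.choose else 0

theorem k_spec {v : Fin 2 → ℝ} (h : v ∈ Q) : k1 v ≠ k2 v ∧ ¬ Bad v (k1 v) ∧ ¬ Bad v (k2 v) ∧
    act (FreeGroup.of (k1 v)) v ∈ Q ∧ act (FreeGroup.of (k2 v)) v ∈ Q := by
  unfold k1 k2
  rw [dif_pos h, dif_pos h]
  exact (two h).choose_spec.choose_spec

/-- an image under a good letter determines the letter and the vector -/
theorem good_inj {v v' : Fin 2 → ℝ} (hv : v ≠ 0) (hv' : v' ≠ 0) {k k' : Fin 9} (h : ¬ Bad v k)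
    (h' : ¬ Bad v' k') (he : act (FreeGroup.of k) v = act (FreeGroup.of k') v') :
    k = k' ∧ v = v' := by
  have h1 := head_of_good hv h
  have h2 := head_of_good hv' h'
  rw [he, h2] at h1
  have hk : k = k' := by
    have := congrArg (fun o => Option.map Prod.fst o) h1
    simpa using this.symm
  subst hk
  refine ⟨rfl, ?_⟩
  rw [← act_inv_act (FreeGroup.of k) v, he, act_inv_act]

/-- the pieces -/
def PA (k : Fin 9) : Set (Fin 2 → ℝ) := {z | ∃ v ∈ Q, k1 v = k ∧ z = act (FreeGroup.of k) v}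
def PB (k : Fin 9) : Set (Fin 2 → ℝ) := {z | ∃ v ∈ Q, k2 v = k ∧ z = act (FreeGroup.of k) v}

theorem PA_sub (k : Fin 9) : PA k ⊆ Q := by
  rintro z ⟨v, hv, rfl, rfl⟩
  exact (k_spec hv).2.2.2.1

theorem PB_sub (k : Fin 9) : PB k ⊆ Q := by
  rintro z ⟨v, hv, rfl, rfl⟩
  exact (k_spec hv).2.2.2.2

theorem PA_disj {k k' : Fin 9} (h : k ≠ k') : Disjoint (PA k) (PA k') := by
  rw [Set.disjoint_left]
  rintro z ⟨v, hv, rfl, rfl⟩ ⟨v', hv', rfl, he⟩
  exact h (good_inj (ne_zero_of_mem hv) (ne_zero_of_mem hv') (k_spec hv).2.1 (k_spec hv').2.1 he).1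

theorem PB_disj {k k' : Fin 9} (h : k ≠ k') : Disjoint (PB k) (PB k') := by
  rw [Set.disjoint_left]
  rintro z ⟨v, hv, rfl, rfl⟩ ⟨v', hv', rfl, he⟩
  exact h (good_inj (ne_zero_of_mem hv) (ne_zero_of_mem hv') (k_spec hv).2.2.1
    (k_spec hv').2.2.1 he).1

theorem PAB_disj (k k' : Fin 9) : Disjoint (PA k) (PB k') := by
  rw [Set.disjoint_left]
  rintro z ⟨v, hv, rfl, rfl⟩ ⟨v', hv', rfl, he⟩
  obtain ⟨h1, rfl⟩ := good_inj (ne_zero_of_mem hv) (ne_zero_of_mem hv') (k_spec hv).2.1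
    (k_spec hv').2.2.1 he
  exact (k_spec hv).1 h1

theorem inv_mulVec (k : Fin 9) (z : Fin 2 → ℝ) :
    (((g k)⁻¹ : SL2R) : Matrix (Fin 2) (Fin 2) ℝ).mulVec z = act (FreeGroup.of k)⁻¹ z := by
  unfold act phi
  rw [map_inv, FreeGroup.lift_apply_of]

theorem union_A : (⋃ k, (fun v => (((g k)⁻¹ : SL2R) : Matrix (Fin 2) (Fin 2) ℝ).mulVec v) '' PA k)
    = Q := by
  apply Set.Subset.antisymm
  · rw [Set.iUnion_subset_iff]
    rintro k _ ⟨z, ⟨v, hv, rfl, rfl⟩, rfl⟩
    simp only [inv_mulVec, act_inv_act]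
    exact hv
  · intro v hv
    rw [Set.mem_iUnion]
    refine ⟨k1 v, act (FreeGroup.of (k1 v)) v, ⟨v, hv, rfl, rfl⟩, ?_⟩
    simp only [inv_mulVec, act_inv_act]

theorem union_B : (⋃ k, (fun v => (((g k)⁻¹ : SL2R) : Matrix (Fin 2) (Fin 2) ℝ).mulVec v) '' PB k)
    = Q := by
  apply Set.Subset.antisymm
  · rw [Set.iUnion_subset_iff]
    rintro k _ ⟨z, ⟨v, hv, rfl, rfl⟩, rfl⟩
    simp only [inv_mulVec, act_inv_act]
    exact hv
  · intro v hv
    rw [Set.mem_iUnion]
    refine ⟨k2 v, act (FreeGroup.of (k2 v)) v, ⟨v, hv, rfl, rfl⟩, ?_⟩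
    simp only [inv_mulVec, act_inv_act]

end Pool.Agent.TH559.Sq
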